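import Mathlib
import Pool.Agent.K4H3.WS.Expo
import Pool.Agent.K4H3.WS.Cantor

/-!
# The growth exponents of Weyl sums with level sets of positive dimension

For every `d ≥ 2` and every `α` with `1/2 < α < 1` the set of points `x` of the `d`-dimensional
unit torus at which the Weyl sums have growth exponent exactly `α` has positive Hausdorff dimension.
So for every `d ≥ 2` there is a set of exponents of positive Lebesgue measure all of whose level
sets have positive dimension.

Proof: take the points `(0, y, 0, …, 0)` where `y` has irrationality exponent exactly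
`τ = 1 / (1 - α)`, with infinitely many of the good approximations having odd denominator. The
upper bound is Weyl's inequality, the lower bound comes from complete Gauss sums of odd modulus,
and a Cantor set of such `y` is built with continued fractions.
-/

set_option autoImplicit false

namespace Pool.Agent.Results.MP_3c4aa6_nt.PositiveMeasureOfExponents

open MeasureTheory

/-- The Weyl sum `S_d(x; N) = ∑_{n=1}^N exp(2πi (x_1 n + x_2 n^2 + ⋯ + x_d n^d))`. The coordinate
`x_{j+1}` is `x j`, for `j = 0, …, d - 1`. -/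
noncomputable def weylSum (d : ℕ) (x : Fin d → ℝ) (N : ℕ) : ℂ :=
  ∑ n ∈ Finset.Icc 1 N,
    Complex.exp (2 * Real.pi * Complex.I * ∑ j : Fin d, (x j : ℂ) * (n : ℂ) ^ ((j : ℕ) + 1))

/-- The growth exponent `σ(x) = limsup_{N → ∞} log |S_d(x; N)| / log N`, as an extended real
number (with `log 0 = -∞`). -/
noncomputable def growthExponent (d : ℕ) (x : Fin d → ℝ) : EReal :=
  Filter.limsup (fun N : ℕ => ENNReal.log ‖weylSum d x N‖ₑ / ((Real.log N : ℝ) : EReal))
    Filter.atTop

/-- The level set `Ω_α` of the points of the unit torus `[0, 1)^d` with growth exponent `α`. -/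
def levelSet (d : ℕ) (α : ℝ) : Set (Fin d → ℝ) :=
  {x | (∀ j, x j ∈ Set.Ico (0 : ℝ) 1) ∧ growthExponent d x = (α : EReal)}

open Pool.Agent.K4H3.WS

/-- the point `(0, y, 0, …, 0)` -/
noncomputable def emb (d : ℕ) (y : ℝ) : Fin d → ℝ := fun j => if (j : ℕ) = 1 then y else 0

lemma sum_Icc_one (F : ℕ → ℂ) (N : ℕ) :
    ∑ n ∈ Finset.Icc 1 N, F n = ∑ n ∈ Finset.range N, F (n + 1) := by
  induction N with
  | zero => simp
  | succ N ih => rw [Finset.sum_range_succ, ← ih, Finset.sum_Icc_succ_top (by omega)]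

lemma weylSum_emb (d : ℕ) (hd : 2 ≤ d) (y : ℝ) (N : ℕ) : weylSum d (emb d y) N = SQ y N := by
  unfold weylSum SQ
  rw [sum_Icc_one]
  apply Finset.sum_congr rfl
  intro n _
  have h1 : ∑ j : Fin d, ((emb d y j : ℝ) : ℂ) * (((n + 1 : ℕ) : ℂ)) ^ ((j : ℕ) + 1) =
      (y : ℂ) * ((n : ℂ) + 1) ^ 2 := by
    rw [Finset.sum_eq_single (⟨1, by omega⟩ : Fin d)]
    · simp [emb]
    · intro j _ hj
      have : (j : ℕ) ≠ 1 := fun h => hj (Fin.ext h)
      simp [emb, this]
    · intro h
      exact absurd (Finset.mem_univ _) h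
  rw [h1]
  unfold Pool.Agent.H520R3.e
  congr 1
  push_cast
  ring

lemma emb_isometry (d : ℕ) (hd : 2 ≤ d) : Isometry (emb d) := by
  apply Isometry.of_dist_eq
  intro y y'
  apply le_antisymm
  · rw [dist_pi_le_iff dist_nonneg]
    intro j
    unfold emb
    split_ifs
    · exact le_rfl
    · rw [dist_self]; exact dist_nonneg
  · have h1 := dist_le_pi_dist (emb d y) (emb d y') (⟨1, by omega⟩ : Fin d)
    simpa [emb] using h1

lemma level (d : ℕ) (hd : 2 ≤ d) (α : ℝ) (h1 : 1 / 2 < α) (h2 : α < 1) :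
    0 < dimH (levelSet d α) := by
  set τ : ℝ := 1 / (1 - α) with hτdef
  have h1α : 0 < 1 - α := by linarith
  have hτ : 2 < τ := by
    rw [hτdef, lt_div_iff₀ h1α]
    linarith
  have hατ : 1 - 1 / τ = α := by
    rw [hτdef]
    field_simp
    ring
  have hsub : emb d '' (Y τ '' Set.Ico (0 : ℝ) 1) ⊆ levelSet d α := by
    rintro _ ⟨_, ⟨x, -, rfl⟩, rfl⟩
    have hmem := Y_mem τ x
    refine ⟨fun j => ?_, ?_⟩
    · unfold emb
      split_ifs
      · exact hmem
      · exact ⟨le_rfl, one_pos⟩
    · have h3 : growthExponent d (emb d (Y τ x)) = sig (SQ (Y τ x)) := by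
        unfold growthExponent sig
        simp only [weylSum_emb d hd]
      rw [h3]
      apply sig_eq _ α (by linarith)
      · intro ε hε
        have := upper τ hτ (Y τ x) (1 / (3 * 8)) (by norm_num) (fun a q hq => Y_far τ x hτ a q hq) ε hε
        rwa [hατ] at this
      · intro s hs0 hs
        apply lowerE τ hτ (Y τ x) (4 / 3) (by norm_num) (Y_close τ x hτ) s hs0
        rwa [hατ]
  calc 0 < dimH (Y τ '' Set.Ico (0 : ℝ) 1) := dim_pos τ hτ
    _ = dimH (emb d '' (Y τ '' Set.Ico (0 : ℝ) 1)) := ((emb_isometry d hd).dimH_image _).symm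
    _ ≤ dimH (levelSet d α) := dimH_mono hsub

/-- For every `d ≥ 2` there is a measurable set `A ⊆ [0, 1]` of positive Lebesgue measure, namely
the interval `(1/2, 1)`, such that `dim Ω_α > 0` for every `α` in `A`. -/
theorem result (d : ℕ) (hd : 2 ≤ d) :
    ∃ A : Set ℝ, A ⊆ Set.Icc 0 1 ∧ MeasurableSet A ∧ 0 < volume A ∧ Set.Ioo (1 / 2) 1 ⊆ A ∧
      ∀ α ∈ A, 0 < dimH (levelSet d α) := by
  refine ⟨Set.Ioo (1 / 2) 1, ?_, measurableSet_Ioo, ?_, subset_rfl, ?_⟩
  · intro α hα
    exact ⟨by linarith [hα.1], hα.2.le⟩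
  · rw [Real.volume_Ioo]
    norm_num
  · intro α hα
    exact level d hd α hα.1 hα.2

end Pool.Agent.Results.MP_3c4aa6_nt.PositiveMeasureOfExponents
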